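import Pool.Agent.U901.GTB.B

/-!
# Motivic elements have bounded codimension in `𝔤𝔯𝔱₁` modulo `[L, …, [L, L'']…] + [L', L'']`
-/

namespace Pool.Agent.Results.MP_446dfa_ag.BoundedCodimension

open Pool.Agent.Helper392_GT Pool.Agent.U901.GTB

/-- Let `L` be the free Lie algebra on `x, y` over a field of characteristic zero, graded by
weight. Let `𝔤 ⊆ L` be a linear subspace of `𝔤𝔯𝔱₁` (antisymmetry, hexagon, pentagon) which is
closed under the Ihara bracket `[σ, τ] + D_σ τ - D_τ σ`, where `D_σ` is the derivation with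
`x ↦ 0`, `y ↦ [y, σ]`, and which contains, for each odd `n ≥ 3`, an element of weight `n` congruent
to `ad(x)^(n-1) y` modulo depth two. Let `W_m = [L, [L, …, [L, L'']…]] + [L', L'']`, with `m`
brackets with `L`, and let `d_{m,n} ≤ e_{m,n}` be the dimensions of the images in `L / W_m` of the
weight `n` parts of `𝔤` and of `𝔤𝔯𝔱₁`. Then `e_{m,n} ≤ d_{m,n} + c_{m,n}` with `c_{m,n}` the sum
of the `i (i + 1) / 2` over the `i < m - 1` of the parity of `n`; in particular
`e_{m,n} - d_{m,n} ≤ C(m, 3)` for all weights `n`. -/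
theorem result {k : Type*} [Field k] [CharZero k] (𝔤 : Submodule k (F2 k)) (hgrt : 𝔤 ≤ grtSub k)
    (hbracket : IharaClosed 𝔤) (hsoule : HasSoule 𝔤) (m n : ℕ) :
    Module.Finite k (wt k n) ∧ dimW 𝔤 m n ≤ dimW (grtSub k) m n ∧
      dimW (grtSub k) m n ≤ dimW 𝔤 m n + excess m n ∧ excess m n ≤ m.choose 3 :=
  main 𝔤 hgrt hbracket hsoule m n

end Pool.Agent.Results.MP_446dfa_ag.BoundedCodimension
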