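import Pool.Agent.Results.MP_446dfa_ag.ExceptionalHyperplanes
import Pool.Agent.Results.MP_807c24_nt.CommonFactors

/-!
# MP_446dfa_ag: the motivic relations hold for all associators at integers with large common factors with the values of
# arithmetic functions

The group `G_π` is all of `GT` if and only if every polynomial relation between the motivic `2 π i` and the motivic multiple zeta
values holds for the universal associator (see `MP_446dfa_ag.ExceptionalHyperplanes`). The motivic `2 π i` and the motivic
multiple zeta values are a motivic family `(l, Y)`: the stuffle product and Euler's formula hold, and there are homomorphisms of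
`ℚ`-algebras to `ℂ` (the period) with values `2 π i` and `ζ(u)`, and to the same ring (the real Frobenius) with `l ↦ -l`,
`Y(u) ↦ Y(u)`. An associator gives a family `(y, Z)`: the stuffle product and Euler's formula `Z(2 m) = - B_{2m} y ^ (2 m) /
(2 (2 m)!)` (theorem of Furusho).

A pattern in `k` variables is a nonempty list of letters `b + u_1 s_1 + ... + u_k s_k`; at a tuple `s` of natural numbers it
gives an index. Let `F_1, …, F_k` be positive multiplicative functions of at most polynomial growth such that `F_i p ≤ M p` for
the large primes `p`, with different values at different large primes; for example Euler's function or the sum of the divisors.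
Let `b < 1`, `0 ≤ c < 2 b - 1`, `θ ≥ 0` and `ρ ≤ 1` with `k (1 - ρ + θ) < 1`. An argument tuple `m ∈ [1, N] ^ k` is good if for
EVERY tuple `v` of integers `v_i ≥ exp ((log N)^b)` with `gcd(v_i, F_i(m_i)) ≥ v_i^ρ`, and ALL tuples `s` with `|s_i - v_i| ≤
v_i ^ θ` in a cone `T ≤ s_i ≤ κ T`, all the relations of degree at most `D` with integer coefficients at most `C ^ T` of all
motivic families, at the indices given by the patterns at `s`, hold for all families `(y, Z)`.

Theorem. For all large `N`, all but `N^k exp (-(log N)^c)` of the `m ∈ [1, N] ^ k` are good, if the constant fronts of the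
patterns are even (`2a, ..., 2a`, or empty); for arbitrary patterns the same holds for the families `(y, Z)` for which all the
relations between `2 π i` and the real multiple zeta values of the (finitely many) fronts hold. The tuples `v` include all tuples
of large divisors `v_i` of the `F_i(m_i)` and their multiples by small integers; for Euler's function, the tuples of the orders
of elements of the groups of units modulo the `m_i`.

`ExceptionalHyperplanes` says nothing about a given sparse sequence of tuples, which may lie on the exceptional hyperplanes; here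
all tuples near tuples of large divisors of the `F_i(m_i)` are allowed, for all but few `m`. The engine is `Pool.Agent.U536.CF` of helper536 (few values of a multiplicative
function have a large common factor with a sparse set), in the form of `MP_807c24_nt.CommonFactors.near_of_few`.
-/

set_option autoImplicit false

namespace Pool.Agent.Results.MP_446dfa_ag.CommonFactors

open Pool.Agent.N733.TG (LM lm_totient lm_sigma)
open Pool.Agent.U536.CF (Common common_of_dvd common_order)
open Pool.Agent.Results.MP_807c24_nt.AlmostAllCoefficients
  (mzv mu Letter index AdmissiblePattern fronts EvenFront IsFamily Transfers)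
open Pool.Agent.Results.MP_807c24_nt.CommonFactors (FewNear near_of_few)
open Pool.Agent.Results.MP_446dfa_ag.ExceptionalHyperplanes (IsMotivic Fails FailsForSome)

lemma failsForSome_mono {k r : ℕ} (w : Fin r → List (Letter k)) (D : ℕ)
    (F : ∀ (A : Type) [CommRing A] [Algebra ℚ A], A → (List ℕ → A) → Prop) (H H' : ℝ) (s : Fin k → ℕ) (h : H ≤ H')
    (hB : FailsForSome w D F H s) : FailsForSome w D F H' s := by
  obtain ⟨R, i1, i2, l, Y, A, i3, i4, y, Z, h1, h2, h0, P, h3, h4, h5⟩ := hB
  exact ⟨R, i1, i2, l, Y, A, i3, i4, y, Z, h1, h2, h0, P, h3, fun m => (h4 m).trans h, h5⟩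

/-- **The motivic relations hold for all associators at integers with large common factors with the values of arithmetic
functions.** Let `w_1, ..., w_r` be admissible patterns in `k ≥ 1` variables, `D`, `κ` natural numbers, `C` a real number,
`F_1, ..., F_k` functions with `LM`, `θ ≥ 0`, `ρ ≤ 1`, `k (1 - ρ + θ) < 1`, `b < 1`, `0 ≤ c < 2 b - 1`. For all large `N`, for all
but `N^k exp (-(log N)^c)` of the `m ∈ [1, N] ^ k`, for EVERY tuple `v` of integers `v_i ≥ exp ((log N)^b)` with
`gcd(v_i, F_i(m_i)) ≥ v_i^ρ`, there is no tuple `s` with `|s_i - v_i| ≤ v_i ^ θ` and `T ≤ s_i ≤ κ T`, at which a relation of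
degree at most `D` with integer coefficients at most `C ^ T` of a motivic family fails for a family `(y, Z)` for which the
relations between `2 π i` and the real multiple zeta values of the fronts hold; if the fronts are even, for any family. Euler's
function and the sum of the divisors satisfy `LM`. Divisors `v_i ≥ exp ((log N)^b)` of `F_i(m_i)` are such integers, and for
Euler's function the orders `≥ exp ((log N)^b)` of the units modulo `m_i`. -/
theorem result :
    (∀ (k r : ℕ), 1 ≤ k → ∀ w : Fin r → List (Letter k), (∀ i, AdmissiblePattern (w i)) → ∀ (D κ : ℕ) (C : ℝ)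
      (F : Fin k → ℕ → ℕ), (∀ i, LM (F i)) → ∀ θ ρ b c : ℝ, 0 ≤ θ → ρ ≤ 1 → k * (1 - ρ + θ) < 1 →
      b < 1 → 0 ≤ c → c < 2 * b - 1 →
      FewNear κ C F θ ρ b c (FailsForSome w D fun _ _ _ y Z => Transfers (fronts w) y Z) ∧
      ((∀ i, EvenFront (w i)) → FewNear κ C F θ ρ b c (FailsForSome w D fun _ _ _ _ _ => True))) ∧
    (LM Nat.totient ∧ LM (fun m => ∑ d ∈ m.divisors, d)) ∧
    (∀ (f : ℕ → ℕ) (b ρ : ℝ) (N m w : ℕ), ρ ≤ 1 → Real.exp (Real.log N ^ b) ≤ (w : ℝ) → w ∣ f m → Common f b ρ N m w) ∧
    ∀ (b ρ : ℝ) (N m : ℕ), ρ ≤ 1 → ∀ x : (ZMod m)ˣ, Real.exp (Real.log N ^ b) ≤ (orderOf x : ℝ) →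
      Common Nat.totient b ρ N m (orderOf x) := by
  refine ⟨fun k r hk w hw D κ C F hF θ ρ b c hθ hρ hk1 hb hc hcb => ⟨?_, fun he => ?_⟩, ⟨lm_totient, lm_sigma⟩,
    fun f b ρ N m w hρ hw hd => common_of_dvd hρ hw hd, fun b ρ N m hρ x hx => common_order hρ x hx⟩
  · exact near_of_few hk κ C hF hθ hρ hk1 hb hc hcb (fun H H' s => failsForSome_mono w D _ H H' s)
      (ExceptionalHyperplanes.result.2.1 k r w hw D (2 * κ)).few
  · exact near_of_few hk κ C hF hθ hρ hk1 hb hc hcb (fun H H' s => failsForSome_mono w D _ H H' s)
      (ExceptionalHyperplanes.result.1 k r w hw he D (2 * κ)).few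

end Pool.Agent.Results.MP_446dfa_ag.CommonFactors
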