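import Pool.Agent.Results.MP_807c24_nt.BadHyperplanes
import Pool.Agent.U553.GT.Back

/-!
# MP_446dfa_ag: the motivic relations hold for all associators, off a bounded number of hyperplanes of arguments

Let `P` be the ring of the (de Rham) motivic periods of `π`; it is the coordinate ring of the torsor under `G_π` of the
associators which come from a comparison isomorphism, and it is generated over `ℚ` by the inverse of the motivic `2 π i`, by the
motivic `2 π i` and by the motivic multiple zeta values. The torsor under `GT` of all associators `(μ, Φ)` with `μ ≠ 0`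
contains it as a closed subscheme, and the coordinate ring of this larger torsor is generated by `y = μ`, `1 / y` and the
coefficients `Z(u_1, ..., u_r)` of the words `A ^ (u_1 - 1) B ... A ^ (u_r - 1) B` in `Φ` (up to sign). So `G_π → GT` is an
isomorphism if and only if every polynomial relation between the motivic `2 π i` and the motivic multiple zeta values holds
for the universal associator `(y, Z)`.

The motivic `2 π i` and the motivic multiple zeta values are a motivic family `(l, Y)` in the sense of this file: the stuffle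
product and Euler's formula hold, there is a homomorphism to `ℂ` (the period) with values `2 π i` and `ζ(u)`, and a homomorphism
to the same ring (the real Frobenius) with `l ↦ -l`, `Y(u) ↦ Y(u)`. An associator gives a family `(y, Z)` by the theorem of
Furusho: the stuffle product and Euler's formula `Z(2 m) = - B_{2m} y ^ (2 m) / (2 (2 m)!)`.

A pattern in `k` variables is a nonempty list of letters `b + u_1 s_1 + ... + u_k s_k`; at a tuple `s` of natural numbers it
gives an index. The first letters may be constant, such as in `ζ(2, 2, 2, s_1, 3, s_1 + s_2)`. We consider the tuples `s` with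
`2 ≤ s_j ≤ κ N` such that in each of the patterns the first letter which is not constant is at least `N`; the other letters may
be small, constant or of intermediate size: for instance all indices `(s_1, ..., s_k)` with `s_1 ≥ N` and `s_j ≤ κ N`.

Theorem. (1) For admissible patterns all of whose constant first letters are equal and even (or there are none) and for natural
numbers `D`, `κ` there is `K` such that for all `C` and all large `N` the tuples in this range, at which a relation of degree at
most `D` with integer coefficients at most `C ^ N` holds for some motivic family and fails for some family, lie on at most `K`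
hyperplanes `∑ b_j s_j = c` with integral coefficients `|b_j| ≤ K`. So at all other tuples all the motivic relations of this
size hold for all associators. (2) For arbitrary patterns the same holds for the families for which all the relations
between `2 π i` and the real multiple zeta values of the (finitely many) fronts hold.

(3) Let `(l, Y)` be a motivic family and `(y, Z)` a family in a domain with `Z(s) ≠ 0` for all large odd `s` (for example the
universal associator, for which (a) is the question). Then the following are equivalent. (a) All polynomial relations between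
`l` and the values of `Y` hold for `(y, Z)`. (b) For all admissible patterns, `D` and `κ` the tuples at which such a relation
fails for `(y, Z)` lie on a bounded number of hyperplanes with bounded coefficients, as in (1). (c) For all patterns with one
variable and exactly one letter `s + b` which is not constant, and all `B`, there are arbitrarily large odd `s` for which all
LINEAR relations with integer coefficients at most `B` between the values `Y(w_i(s))` hold for `Z`.

The proofs of (1) and (2) use `Pool.Agent.U553.HY` (helper553; elimination between tuples in general position,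
`Pool.Agent.X90.DC` of the starting library) in the form of `MP_807c24_nt.BadHyperplanes` and the period homomorphism; (3) uses
`Pool.Agent.U553.GT` (after helper734): a relation is linearised with the stuffle product and multiplied by `Y(s)`, and `l` is
eliminated with the real Frobenius and `l² = -24 Y(2)`.
-/

set_option autoImplicit false

namespace Pool.Agent.Results.MP_446dfa_ag.ExceptionalHyperplanes

open Pool.Agent.Results.MP_807c24_nt.AlmostAllCoefficients
open Pool.Agent.Results.MP_807c24_nt.BadHyperplanes
  (OnFewHyperplanes part1H part2H)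
open Pool.Agent.U553.HY (Range OnHyperplanes)

/-- motivic families `(l, Y)`: the stuffle product and Euler's formula hold, there is a homomorphism of `ℚ`-algebras to `ℂ` with
`l ↦ 2 π i` and `Y(u) ↦ ζ(u)`, and a homomorphism of `ℚ`-algebras with `l ↦ -l` and `Y(u) ↦ Y(u)` -/
structure IsMotivic {R : Type} [CommRing R] [Algebra ℚ R] (l : R) (Y : List ℕ → R) : Prop where
  family : IsFamily l Y
  period : ∃ per : R →ₐ[ℚ] ℂ, per l = mu ∧ ∀ u, Admissible u → per (Y u) = ((mzv u : ℝ) : ℂ)
  frobenius : ∃ c : R →ₐ[ℚ] R, c l = -l ∧ ∀ u, Admissible u → c (Y u) = Y u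

/-- a polynomial relation of degree at most `D` with integer coefficients of absolute value at most `H` holds for `l` and
the values of `Y` at the indices given by the patterns at `s`, and fails for `y` and `Z` -/
def Fails {k r : ℕ} (w : Fin r → List (Letter k)) (D : ℕ) (H : ℝ) {R A : Type} [CommRing R] [CommRing A] (l : R)
    (Y : List ℕ → R) (y : A) (Z : List ℕ → A) (s : Fin k → ℕ) : Prop :=
  ∃ P : MvPolynomial (Fin 1 ⊕ Fin r) ℤ, P.totalDegree ≤ D ∧ (∀ m, |((P.coeff m : ℤ) : ℝ)| ≤ H) ∧
    MvPolynomial.aeval (Sum.elim (fun _ => l) fun i => Y (index s (w i))) P = 0 ∧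
    MvPolynomial.aeval (Sum.elim (fun _ => y) fun i => Z (index s (w i))) P ≠ 0

/-- such a relation of some motivic family fails for some family with the property `F` -/
def FailsForSome {k r : ℕ} (w : Fin r → List (Letter k)) (D : ℕ)
    (F : ∀ (A : Type) [CommRing A] [Algebra ℚ A], A → (List ℕ → A) → Prop) (H : ℝ) (s : Fin k → ℕ) : Prop :=
  ∃ (R : Type) (_ : CommRing R) (_ : Algebra ℚ R) (l : R) (Y : List ℕ → R) (A : Type) (_ : CommRing A)
    (_ : Algebra ℚ A) (y : A) (Z : List ℕ → A), IsMotivic l Y ∧ IsFamily y Z ∧ F A y Z ∧ Fails w D H l Y y Z s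

/-- (a): every polynomial relation with rational coefficients between `l` and the values of `Y` at the admissible indices
holds for `y` and `Z`; the first variable stands for `l` and `y` -/
def AllRelations {R A : Type} [CommRing R] [Algebra ℚ R] [CommRing A] [Algebra ℚ A] (l : R) (Y : List ℕ → R) (y : A)
    (Z : List ℕ → A) : Prop :=
  ∀ f : MvPolynomial (Fin 1 ⊕ {u : List ℕ // Admissible u}) ℚ,
    MvPolynomial.aeval (Sum.elim (fun _ => l) fun u => Y u.1) f = 0 →
      MvPolynomial.aeval (Sum.elim (fun _ => y) fun u => Z u.1) f = 0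

/-- (b): for all admissible patterns, `D` and `κ` the relations between `l` and the values of `Y` at the indices given by the
patterns fail for `(y, Z)` only at tuples on few hyperplanes -/
def OffFewHyperplanes {R A : Type} [CommRing R] [CommRing A] (l : R) (Y : List ℕ → R) (y : A)
    (Z : List ℕ → A) : Prop :=
  ∀ (k r : ℕ) (w : Fin r → List (Letter k)), (∀ i, AdmissiblePattern (w i)) → ∀ D κ : ℕ,
    OnFewHyperplanes w κ fun H s => Fails w D H l Y y Z s

/-- (c): one large odd argument and linear relations with bounded coefficients -/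
def AtOneLargeArgument {R A : Type} [CommRing R] [CommRing A] (Y : List ℕ → R) (Z : List ℕ → A) : Prop :=
  ∀ (r : ℕ) (w : Fin r → List (Letter 1)), (∀ i, AdmissiblePattern (w i) ∧ OneLarge (w i)) → ∀ B s₁ : ℕ,
    ∃ s, s₁ ≤ s ∧ Odd s ∧ ∀ a : Fin r → ℤ, (∀ i, |a i| ≤ B) →
      ∑ i, (a i : R) * Y (index (fun _ => s) (w i)) = 0 →
      ∑ i, (a i : A) * Z (index (fun _ => s) (w i)) = 0

theorem adm_index {k : ℕ} {s : Fin k → ℕ} (hs : ∀ j, 2 ≤ s j) {w : List (Letter k)} (hw : AdmissiblePattern w) :
    Admissible (index s w) := by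
  obtain ⟨h1, h2, h3⟩ := hw
  have hbig : ∀ u : Letter k, u.2 ≠ 0 → 2 ≤ u.1 + ∑ j, u.2 j * s j := by
    intro u hu
    obtain ⟨j, hj⟩ : ∃ j, u.2 j ≠ 0 := by
      by_contra h
      push Not at h
      exact hu (funext h)
    have h4 : u.2 j * s j ≤ ∑ j, u.2 j * s j :=
      Finset.single_le_sum (f := fun j => u.2 j * s j) (fun _ _ => Nat.zero_le _) (Finset.mem_univ j)
    have h5 : s j ≤ u.2 j * s j := Nat.le_mul_of_pos_left _ (Nat.pos_of_ne_zero hj)
    have := hs j
    omega
  cases w with
  | nil => exact absurd rfl h1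
  | cons u w =>
    rw [index, List.map_cons]
    refine ⟨?_, fun t ht => ?_⟩
    · rcases h2 u (by simp) with h | h
      · exact hbig u h
      · exact h.trans (Nat.le_add_right _ _)
    · obtain ⟨v, hv, rfl⟩ := List.mem_map.1 ht
      rcases h3 v (List.mem_cons_of_mem _ hv) with h | h
      · exact (hbig v h).trans' (by omega)
      · exact h.trans (Nat.le_add_right _ _)

/-- a relation of a motivic family holds for the numbers -/
theorem bad_of {k r : ℕ} (w : Fin r → List (Letter k)) (hw : ∀ i, AdmissiblePattern (w i)) (D : ℕ)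
    (F : ∀ (A : Type) [CommRing A] [Algebra ℚ A], A → (List ℕ → A) → Prop) (H : ℝ) (s : Fin k → ℕ) (hs : ∀ j, 2 ≤ s j)
    (h : FailsForSome w D F H s) : BadFor w D F H s := by
  obtain ⟨R, i1, i2, l, Y, A, i3, i4, y, Z, hY, hZ, hF, P, h1, h2, h3, h4⟩ := h
  obtain ⟨per, hl, hper⟩ := hY.period
  refine ⟨A, i3, i4, y, Z, hZ, hF, P, h1, h2, ?_, h4⟩
  have h5 : MvPolynomial.aeval (fun i => per (Sum.elim (fun _ => l) (fun i => Y (index s (w i))) i)) P =
      per (MvPolynomial.aeval (Sum.elim (fun _ => l) fun i => Y (index s (w i))) P) := by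
    have h6 := MvPolynomial.map_aeval (Sum.elim (fun _ => l) fun i => Y (index s (w i))) per.toRingHom P
    rw [MvPolynomial.aeval_eq_eval₂Hom]
    have h7 : (algebraMap ℤ ℂ) = per.toRingHom.comp (algebraMap ℤ R) := RingHom.ext_int _ _
    rw [h7]
    exact h6.symm
  rw [h3, map_zero] at h5
  rw [← h5]
  congr 2
  funext i
  rcases i with i | i
  · exact hl.symm
  · exact (hper _ (adm_index hs (hw i))).symm

theorem of_bad {k r : ℕ} (w : Fin r → List (Letter k)) (hw : ∀ i, AdmissiblePattern (w i)) (D κ : ℕ)
    (F : ∀ (A : Type) [CommRing A] [Algebra ℚ A], A → (List ℕ → A) → Prop) (h : OnFewHyperplanes w κ (BadFor w D F)) :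
    OnFewHyperplanes w κ (FailsForSome w D F) := by
  obtain ⟨K, hK⟩ := h
  refine ⟨K, fun C => ?_⟩
  obtain ⟨N₀, hN⟩ := hK C
  refine ⟨N₀, fun N hN' => (hN N hN').mono ?_⟩
  rintro s ⟨h1, h2⟩
  exact ⟨h1, bad_of w hw D F _ s (fun j => (h1.1 j).1) h2⟩

/-- if all relations hold then no relation fails -/
theorem not_fails {k r : ℕ} (w : Fin r → List (Letter k)) (hw : ∀ i, AdmissiblePattern (w i)) (D : ℕ) (H : ℝ)
    {R A : Type} [CommRing R] [Algebra ℚ R] [CommRing A] [Algebra ℚ A] (l : R) (Y : List ℕ → R) (y : A)
    (Z : List ℕ → A) (h : AllRelations l Y y Z) (s : Fin k → ℕ) (hs : ∀ j, 2 ≤ s j) : ¬ Fails w D H l Y y Z s := by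
  rintro ⟨P, -, -, h1, h2⟩
  apply h2
  let ρ : Fin 1 ⊕ Fin r → Fin 1 ⊕ {u : List ℕ // Admissible u} :=
    Sum.map id fun i => ⟨index s (w i), adm_index hs (hw i)⟩
  have h3 : ∀ (B : Type) [CommRing B] [Algebra ℚ B] (x : B) (X : List ℕ → B),
      MvPolynomial.aeval (Sum.elim (fun _ => x) fun u : {u : List ℕ // Admissible u} => X u.1)
        (MvPolynomial.map (algebraMap ℤ ℚ) (MvPolynomial.rename ρ P)) =
      MvPolynomial.aeval (Sum.elim (fun _ => x) fun i => X (index s (w i))) P := by
    intro B _ _ x X
    rw [MvPolynomial.aeval_map_algebraMap, MvPolynomial.aeval_rename]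
    congr 2
    funext i
    rcases i with i | i
    · rfl
    · rfl
  rw [← h3 A y Z]
  apply h
  rw [h3 R l Y]
  exact h1

theorem a_to_b {R A : Type} [CommRing R] [Algebra ℚ R] [CommRing A] [Algebra ℚ A] (l : R) (Y : List ℕ → R) (y : A)
    (Z : List ℕ → A) (h : AllRelations l Y y Z) : OffFewHyperplanes l Y y Z := by
  intro k r w hw D κ
  refine ⟨0, fun C => ⟨0, fun N _ => ⟨∅, by simp, by simp, ?_⟩⟩⟩
  rintro s ⟨h1, h2⟩
  exact absurd h2 (not_fails w hw D _ l Y y Z h s fun j => (h1.1 j).1)

theorem b_to_c {R A : Type} [CommRing R] [CommRing A] (l : R) (Y : List ℕ → R) (y : A) (Z : List ℕ → A)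
    (h : OffFewHyperplanes l Y y Z) : AtOneLargeArgument Y Z := by
  classical
  intro r w hw B s₁
  by_contra hcon
  push Not at hcon
  obtain ⟨K, hK⟩ := (h 1 r w (fun i => (hw i).1) 1 4).few
  obtain ⟨N₀, hN⟩ := hK (B + 1 : ℝ)
  set N := N₀ + s₁ + K + 2 with hNdef
  have h1 : {s : Fin 1 → ℕ | (∀ j, N ≤ s j ∧ s j ≤ 4 * N) ∧ Fails w 1 ((B + 1 : ℝ) ^ N) l Y y Z s}.ncard ≤
      K * N ^ (1 - 1) := hN N (by omega)
  rw [Nat.sub_self, pow_zero, mul_one] at h1
  let φ : ℕ → Fin 1 → ℕ := fun i _ => 2 * (N + i) + 1
  have hφ : Function.Injective φ := by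
    intro i j hij
    have := congrFun hij 0
    simp only [φ] at this
    omega
  have h2 : φ '' ((Finset.range (K + 1) : Finset ℕ) : Set ℕ) ⊆
      {s : Fin 1 → ℕ | (∀ j, N ≤ s j ∧ s j ≤ 4 * N) ∧ Fails w 1 ((B + 1 : ℝ) ^ N) l Y y Z s} := by
    rintro s ⟨i', hi, rfl⟩
    rw [Finset.mem_coe, Finset.mem_range] at hi
    refine ⟨fun j => ⟨by simp only [φ]; omega, by simp only [φ]; omega⟩, ?_⟩
    obtain ⟨a, ha, hR, hA⟩ := hcon (2 * (N + i') + 1) (by omega) ⟨N + i', rfl⟩
    refine ⟨∑ i, MvPolynomial.C (a i) * MvPolynomial.X (Sum.inr i), ?_, fun m => ?_, ?_, ?_⟩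
    · refine MvPolynomial.totalDegree_finsetSum_le fun i _ => ?_
      refine (MvPolynomial.totalDegree_mul _ _).trans ?_
      rw [MvPolynomial.totalDegree_C, zero_add]
      exact (MvPolynomial.totalDegree_X _).le
    · rw [MvPolynomial.coeff_sum]
      simp only [MvPolynomial.coeff_C_mul, MvPolynomial.coeff_X]
      have hB1 : (B : ℝ) ≤ (B + 1 : ℝ) ^ N := by
        have h3 : (B + 1 : ℝ) ^ 1 ≤ (B + 1 : ℝ) ^ N :=
          pow_le_pow_right₀ (by have := Nat.cast_nonneg (α := ℝ) B; linarith) (by omega)
        rw [pow_one] at h3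
        linarith
      refine le_trans ?_ hB1
      by_cases hm : ∃ i : Fin r, Finsupp.single (Sum.inr i : Fin 1 ⊕ Fin r) 1 = m
      · obtain ⟨i₀, rfl⟩ := hm
        have h4 : ∑ x, a x * (if Finsupp.single (Sum.inr x : Fin 1 ⊕ Fin r) 1 =
            Finsupp.single (Sum.inr i₀) 1 then (1 : ℤ) else 0) = a i₀ := by
          rw [Finset.sum_eq_single i₀]
          · rw [if_pos rfl, mul_one]
          · intro x _ hx
            rw [if_neg, mul_zero]
            intro h5
            exact hx (Sum.inr_injective ((Finsupp.single_left_inj one_ne_zero).1 h5))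
          · intro h5
            exact absurd (Finset.mem_univ _) h5
        rw [h4]
        exact_mod_cast ha i₀
      · have h4 : ∑ x, a x * (if Finsupp.single (Sum.inr x : Fin 1 ⊕ Fin r) 1 = m then (1 : ℤ) else 0) = 0 := by
          refine Finset.sum_eq_zero fun x _ => ?_
          rw [if_neg fun h5 => hm ⟨x, h5⟩, mul_zero]
        rw [h4, Int.cast_zero, abs_zero]
        exact Nat.cast_nonneg _
    · rw [map_sum]
      refine Eq.trans (Finset.sum_congr rfl fun i _ => ?_) hR
      rw [map_mul, MvPolynomial.aeval_C, MvPolynomial.aeval_X, Sum.elim_inr]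
      rfl
    · rw [map_sum]
      intro h5
      refine hA (Eq.trans (Finset.sum_congr rfl fun i _ => ?_) h5)
      rw [map_mul, MvPolynomial.aeval_C, MvPolynomial.aeval_X, Sum.elim_inr]
      rfl
  have hfin : {s : Fin 1 → ℕ | (∀ j, N ≤ s j ∧ s j ≤ 4 * N) ∧ Fails w 1 ((B + 1 : ℝ) ^ N) l Y y Z s}.Finite := by
    refine (Set.Finite.pi' (t := fun _ : Fin 1 => Set.Icc N (4 * N)) fun _ => Set.finite_Icc _ _).subset ?_
    intro s hs j
    exact ⟨(hs.1 j).1, (hs.1 j).2⟩
  have h3 := Set.ncard_le_ncard h2 hfin
  rw [Set.ncard_image_of_injective _ hφ, Set.ncard_coe_finset, Finset.card_range] at h3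
  omega

theorem sq_of {A : Type} [CommRing A] [Algebra ℚ A] (y : A) (Z : List ℕ → A) (hZ : IsFamily y Z) :
    y ^ 2 = -24 * Z [2] := by
  have h1 := hZ.euler 1 le_rfl
  rw [show 2 * 1 = 2 from rfl] at h1
  have h2 : (- bernoulli 2 / (2 * (Nat.factorial 2 : ℚ)) : ℚ) = -1 / 24 := by
    rw [bernoulli_two]
    norm_num [Nat.factorial]
  rw [h2] at h1
  rw [h1]
  have h3 : (-24 : A) = algebraMap ℚ A (-24) := by
    rw [map_neg]
    congr 1
    exact (map_ofNat (algebraMap ℚ A) 24).symm
  rw [h3, ← mul_assoc, ← map_mul]
  norm_num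

theorem c_to_a {R : Type} [CommRing R] [Algebra ℚ R] (l : R) (Y : List ℕ → R) (hY : IsMotivic l Y) {A : Type}
    [CommRing A] [IsDomain A] [Algebra ℚ A] (y : A) (Z : List ℕ → A) (hZ : IsFamily y Z)
    (s₀ : ℕ) (hne : ∀ s, s₀ ≤ s → Odd s → Z [s] ≠ 0) (h : AtOneLargeArgument Y Z) : AllRelations l Y y Z := by
  intro f hf
  obtain ⟨c, hcl, hcY⟩ := hY.frobenius
  refine Pool.Agent.U553.GT.mu_of
    (fun u : {u : List ℕ // Admissible u} => u.1)
    ⟨[2], ⟨le_rfl, by simp⟩⟩ rfl l Y (sq_of l Y hY.family) c hcl (fun u => hcY u.1 u.2) y Z (sq_of y Z hZ) ?_ f hf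
  intro f hf
  refine Pool.Agent.U553.GT.back (fun u : {u : List ℕ // Admissible u} => u.1)
    (fun u => (adm_iff u.1).1 u.2) R Y (st_of hY.family) A Z (st_of hZ) s₀ hne ?_ f hf
  intro r w hw B s₁
  have hw' : ∀ i, AdmissiblePattern (w i) ∧ OneLarge (w i) := by
    intro i
    refine ⟨⟨?_, (hw i).1⟩, (hw i).2⟩
    obtain ⟨p, b, q, h4⟩ := (hw i).2
    rw [h4]
    simp
  obtain ⟨s, h1, h2, h3⟩ := h r w hw' B s₁
  exact ⟨s, h1, h2, fun a ha h4 => h3 a ha h4⟩

/-- **Theorem.** (1) For admissible patterns `w_1, ..., w_r` in `k` variables with even fronts and natural numbers `D`, `κ`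
there is `K` such that for all `C` and all large `N` the following tuples `s` lie on at most `K` hyperplanes `∑ b_j s_j = c` with
integers `c` and `b_j`, not all zero, `|b_j| ≤ K`: the tuples with `2 ≤ s_j ≤ κ N`, for which the first letters of the patterns
which are not constant are at least `N`, such that a relation of degree at most `D` with integer coefficients at most `C ^ N` of
some motivic family (for example the motivic multiple zeta values) fails for some family (for example an associator). (2) For
arbitrary admissible patterns the same holds for the families for which the relations between `2 π i` and the real multiple zeta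
values of the fronts hold. (3) For a motivic family `(l, Y)` and a family `(y, Z)` in a domain with `Z(s) ≠ 0` for all large odd
`s`, all relations of `(l, Y)` hold for `(y, Z)` if and only if the tuples at which they fail lie on few hyperplanes as in (1),
for all admissible patterns, `D`, `κ`; and if and only if for all patterns with exactly one letter `s + b` which is not constant
and all `B` there are arbitrarily large odd `s` for which all linear relations with integer coefficients at most `B` between the
values `Y(w_i(s))` hold for `Z`. -/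
theorem result :
    (∀ (k r : ℕ) (w : Fin r → List (Letter k)), (∀ i, AdmissiblePattern (w i)) → (∀ i, EvenFront (w i)) →
      ∀ D κ : ℕ, OnFewHyperplanes w κ (FailsForSome w D fun _ _ _ _ _ => True)) ∧
    (∀ (k r : ℕ) (w : Fin r → List (Letter k)), (∀ i, AdmissiblePattern (w i)) → ∀ D κ : ℕ,
      OnFewHyperplanes w κ (FailsForSome w D fun _ _ _ y Z => Transfers (fronts w) y Z)) ∧
    ∀ (R : Type) [CommRing R] [Algebra ℚ R] (l : R) (Y : List ℕ → R), IsMotivic l Y →
      ∀ (A : Type) [CommRing A] [IsDomain A] [Algebra ℚ A] (y : A) (Z : List ℕ → A), IsFamily y Z →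
        (∃ s₀, ∀ s, s₀ ≤ s → Odd s → Z [s] ≠ 0) →
        (AllRelations l Y y Z ↔ OffFewHyperplanes l Y y Z) ∧ (AllRelations l Y y Z ↔ AtOneLargeArgument Y Z) := by
  refine ⟨fun k r w hw he D κ => of_bad w hw D κ _ (part1H w hw he D κ),
    fun k r w hw D κ => of_bad w hw D κ _ (part2H w hw D κ), ?_⟩
  intro R _ _ l Y hY A _ _ _ y Z hZ hs
  obtain ⟨s₀, hne⟩ := hs
  exact ⟨⟨a_to_b l Y y Z, fun h => c_to_a l Y hY y Z hZ s₀ hne (b_to_c l Y y Z h)⟩,
    ⟨fun h => b_to_c l Y y Z (a_to_b l Y y Z h), c_to_a l Y hY y Z hZ s₀ hne⟩⟩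

end Pool.Agent.Results.MP_446dfa_ag.ExceptionalHyperplanes
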