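import Pool.Agent.U691.GT.Fin

/-!
# In each depth the motivic elements are a positive proportion of `𝔤𝔯𝔱₁`

The Lie algebra of the motivic Galois group (of the category generated by the fundamental group of the thrice
punctured line) is a subspace `𝔤` of `𝔤𝔯𝔱₁`, closed under the Ihara bracket, which contains for each odd `n ≥ 3` an
element of weight `n` congruent to `ad(x)^(n-1) y` modulo depth two; the question is whether it is all of `𝔤𝔯𝔱₁`.
We compare the graded pieces for the depth (the number of letters `y`).

Upper bound: an element of the free Lie algebra is determined modulo depth `d + 1` by its coefficients at the words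
with `d` letters `y` which end with `y`.

Lower bound: the nested brackets `{σ_(m_1), {σ_(m_2), …, σ_(m_d)} … }` of the elements `σ_m` of weight `m + 1`, with
even `m_i = p a_i + c`, `d c < p` and `a_d > a_i` for `i < d`, are linearly independent modulo depth `d + 1`. In fact
all products of `d` such elements in the enveloping algebra are: the coefficients in depth `d` are integers, and
modulo `p` one can use the theorem of Lucas. If the exponents `k_1, …, k_d` of a word have the last digits
`d c, 0, …, 0` in base `p`, the coefficient of the product is `± binom(a_1, k_2 / p) ⋯ binom(a_(d-1), k_d / p)`,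
because all other terms of the action of `(ad x)^m y` have a last digit which is too large.
-/

set_option autoImplicit false

namespace Pool.Agent.Results.MP_446dfa_ag.PositiveProportionInEachDepth

open Pool.Agent.Helper392_GT Pool.Agent.U691.GT

/-- Let `L` be the free Lie algebra on `x, y` over `ℚ`, graded by weight. Let `𝔤 ⊆ L` be a linear subspace of
`𝔤𝔯𝔱₁` (antisymmetry, hexagon, pentagon) which is closed under the Ihara bracket `[σ, τ] + D_σ τ - D_τ σ`, where
`D_σ` is the derivation with `x ↦ 0`, `y ↦ [y, σ]`, and which contains, for each odd `n ≥ 3`, an element of weight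
`n` congruent to `ad(x)^(n-1) y` modulo depth two. For a subspace `V` of `L` let `dimD V N d` be the dimension of
the depth `d` part of `V` in weight `N` (the elements of `V` of weight `N` and depth at least `d`, modulo depth at
least `d + 1`). Let `d ≥ 1`, let `p` be an odd prime and `c ≥ 1` with `d c < p`. If `N ≡ d (c + 1)` modulo `p`,
`N ≡ d` modulo `2` and `N ≥ 3 d p + d (c + 1)`, then
`(N / (2 d (4 p + 1)))^(d-1) ≤ dimD 𝔤 N d ≤ dimD 𝔤𝔯𝔱₁ N d ≤ N^(d-1)`. -/
theorem result (𝔤 : Submodule ℚ (F2 ℚ)) (hgrt : 𝔤 ≤ grtSub ℚ) (hbracket : IharaClosed 𝔤)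
    (hsoule : HasSoule 𝔤) (d p c N : ℕ) (hd : 1 ≤ d) (hp : p.Prime) (hp2 : p ≠ 2) (hc : 1 ≤ c)
    (hdp : d * c < p) (hN : N ≡ d * (c + 1) [MOD p]) (hN2 : N ≡ d [MOD 2])
    (hNl : 3 * d * p + d * (c + 1) ≤ N) :
    N ^ (d - 1) ≤ (2 * d * (4 * p + 1)) ^ (d - 1) * dimD 𝔤 N d ∧
      dimD 𝔤 N d ≤ dimD (grtSub ℚ) N d ∧ dimD (grtSub ℚ) N d ≤ N ^ (d - 1) :=
  final' 𝔤 hgrt hbracket hsoule d p c N hd hp hp2 hc hdp hN hN2 hNl

end Pool.Agent.Results.MP_446dfa_ag.PositiveProportionInEachDepth
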